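import Mathlib

namespace Pool.Agent.Results.MP_ecd4e3_gt.Sponge

open Set MeasureTheory Topology Filter
open scoped ENNReal NNReal

/-! ### The tooth function and the rough function -/

/-- distance to the nearest integer -/
noncomputable def tooth (x : ℝ) : ℝ := |x - round x|

lemma tooth_nonneg (x : ℝ) : 0 ≤ tooth x := abs_nonneg _

lemma tooth_le (x : ℝ) : tooth x ≤ 1 / 2 := abs_sub_round x

lemma tooth_le_add (x y : ℝ) : tooth x ≤ tooth y + |x - y| := by
  unfold tooth
  calc |x - round x| ≤ |x - (round y : ℤ)| := round_le x (round y)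
    _ = |(y - round y) + (x - y)| := by ring_nf
    _ ≤ |y - round y| + |x - y| := abs_add_le _ _

lemma tooth_lip (x y : ℝ) : |tooth x - tooth y| ≤ |x - y| := by
  rw [abs_le]
  have h1 := tooth_le_add x y
  have h2 := tooth_le_add y x
  rw [abs_sub_comm y x] at h2
  constructor <;> linarith

lemma tooth_int (m : ℤ) : tooth (m : ℝ) = 0 := by simp [tooth]

lemma tooth_sub_le_one (x y : ℝ) : |tooth x - tooth y| ≤ 1 := by
  have h1 := tooth_nonneg x; have h2 := tooth_nonneg y
  have h3 := tooth_le x; have h4 := tooth_le y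
  rw [abs_le]; constructor <;> linarith

/-- neighbouring half integers have tooth values `0` and `1/2` -/
lemma tooth_half_step (m : ℤ) : |tooth (((m + 1 : ℤ) : ℝ) / 2) - tooth ((m : ℝ) / 2)| = 1 / 2 := by
  have key : ∀ k : ℤ, tooth ((k : ℝ) + 1 / 2) = 1 / 2 := by
    intro k
    apply le_antisymm (tooth_le _)
    unfold tooth
    set r := round ((k : ℝ) + 1 / 2)
    rcases le_or_gt r k with h | h
    · have : (r : ℝ) ≤ k := by exact_mod_cast h
      have h5 : (1 / 2 : ℝ) ≤ (k : ℝ) + 1 / 2 - r := by linarith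
      exact h5.trans (le_abs_self _)
    · have : (k : ℝ) + 1 ≤ r := by exact_mod_cast h
      have h5 : (1 / 2 : ℝ) ≤ -((k : ℝ) + 1 / 2 - r) := by linarith
      exact h5.trans (neg_le_abs _)
  rcases Int.even_or_odd' m with ⟨k, rfl | rfl⟩
  · have e1 : (((2 * k + 1 : ℤ) : ℝ)) / 2 = (k : ℝ) + 1 / 2 := by push_cast; ring
    have e2 : (((2 * k : ℤ) : ℝ)) / 2 = ((k : ℤ) : ℝ) := by push_cast; ring
    rw [e1, e2, key, tooth_int]; norm_num
  · have e1 : (((2 * k + 1 + 1 : ℤ) : ℝ)) / 2 = ((k + 1 : ℤ) : ℝ) := by push_cast; ring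
    have e2 : (((2 * k + 1 : ℤ) : ℝ)) / 2 = (k : ℝ) + 1 / 2 := by push_cast; ring
    rw [e1, e2, key, tooth_int]; norm_num

/-- the scale `2^(j^2)` -/
noncomputable def sc (j : ℕ) : ℝ := 2 ^ (j ^ 2)

lemma sc_pos (j : ℕ) : 0 < sc j := by unfold sc; positivity

lemma one_le_sc (j : ℕ) : 1 ≤ sc j := one_le_pow₀ (by norm_num)

/-- the `j`-th term of the rough function -/
noncomputable def term (x : ℝ) (j : ℕ) : ℝ := 3 ^ j / sc j * tooth (sc j * x)

/-- the rough function: Hoelder of every exponent below one, of unbounded variation on every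
interval -/
noncomputable def rough (x : ℝ) : ℝ := ∑' j, term x j

lemma rpow_bound {u α : ℝ} (hu : 0 ≤ u) (h0 : 0 < α) (h1 : α < 1) : min 1 u ≤ u ^ α := by
  rcases le_or_gt u 1 with h | h
  · rw [min_eq_right h]
    rcases hu.eq_or_lt with h2 | h2
    · rw [← h2, Real.zero_rpow h0.ne']
    · calc u = u ^ (1 : ℝ) := (Real.rpow_one u).symm
        _ ≤ u ^ α := Real.rpow_le_rpow_of_exponent_ge h2 h h1.le
  · rw [min_eq_left h.le]
    exact Real.one_le_rpow h.le h0.le

lemma term_sub (x y α : ℝ) (h0 : 0 < α) (h1 : α < 1) (j : ℕ) :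
    |term x j - term y j| ≤ (3 ^ j * sc j ^ (α - 1)) * |x - y| ^ α := by
  have hs := sc_pos j
  have e : term x j - term y j = 3 ^ j / sc j * (tooth (sc j * x) - tooth (sc j * y)) := by
    unfold term; ring
  have hm : |tooth (sc j * x) - tooth (sc j * y)| ≤ (sc j * |x - y|) ^ α := by
    refine le_trans (le_min (tooth_sub_le_one _ _) ?_) (rpow_bound (by positivity) h0 h1)
    calc |tooth (sc j * x) - tooth (sc j * y)| ≤ |sc j * x - sc j * y| := tooth_lip _ _
      _ = sc j * |x - y| := by rw [← mul_sub, abs_mul, abs_of_pos hs]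
  rw [e, abs_mul, abs_of_nonneg (by positivity : (0 : ℝ) ≤ 3 ^ j / sc j)]
  calc 3 ^ j / sc j * |tooth (sc j * x) - tooth (sc j * y)|
      ≤ 3 ^ j / sc j * (sc j * |x - y|) ^ α := by gcongr
    _ = (3 ^ j * sc j ^ (α - 1)) * |x - y| ^ α := by
      rw [Real.mul_rpow hs.le (abs_nonneg _), Real.rpow_sub_one hs.ne']; ring

lemma summable_coef (α : ℝ) (h1 : α < 1) : Summable (fun j : ℕ => (3 : ℝ) ^ j * sc j ^ (α - 1)) := by
  have hlim : Tendsto (fun j : ℕ => 3 * ((2 : ℝ) ^ (α - 1)) ^ j) atTop (𝓝 0) := by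
    have h2 : (2 : ℝ) ^ (α - 1) < 1 := Real.rpow_lt_one_of_one_lt_of_neg (by norm_num) (by linarith)
    have h3 : (0 : ℝ) ≤ (2 : ℝ) ^ (α - 1) := by positivity
    simpa using (tendsto_pow_atTop_nhds_zero_of_lt_one h3 h2).const_mul 3
  have hev : ∀ᶠ j : ℕ in atTop, 3 * ((2 : ℝ) ^ (α - 1)) ^ j ≤ 1 / 2 :=
    (hlim.eventually (gt_mem_nhds (by norm_num : (0 : ℝ) < 1 / 2))).mono (fun _ h => h.le)
  have hgeo : Summable (fun j : ℕ => ((1 : ℝ) / 2) ^ j) := summable_geometric_two
  refine Summable.of_norm_bounded_eventually_nat hgeo ?_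
  filter_upwards [hev] with j hj
  have e : (3 : ℝ) ^ j * sc j ^ (α - 1) = (3 * ((2 : ℝ) ^ (α - 1)) ^ j) ^ j := by
    unfold sc
    rw [mul_pow, ← Real.rpow_natCast (2 : ℝ) (j ^ 2), ← Real.rpow_mul (by norm_num), ← pow_mul,
      ← Real.rpow_natCast ((2 : ℝ) ^ (α - 1)) (j * j), ← Real.rpow_mul (by norm_num)]
    congr 2
    push_cast; ring
  rw [e, Real.norm_of_nonneg (by positivity)]
  exact pow_le_pow_left₀ (by positivity) hj j

lemma summable_term (x : ℝ) : Summable (term x) := by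
  have h := (summable_coef (1 / 2) (by norm_num)).mul_right (|x| ^ (1 / 2 : ℝ))
  refine Summable.of_norm_bounded h (fun j => ?_)
  have h2 := term_sub x 0 (1 / 2) (by norm_num) (by norm_num) j
  have e : term 0 j = 0 := by
    unfold term
    have : sc j * 0 = ((0 : ℤ) : ℝ) := by simp
    rw [this, tooth_int, mul_zero]
  rw [e, sub_zero, sub_zero] at h2
  simpa using h2

/-- Hoelder constant -/
noncomputable def hc (α : ℝ) : ℝ := ∑' j : ℕ, (3 : ℝ) ^ j * sc j ^ (α - 1)

lemma hc_nonneg (α : ℝ) : 0 ≤ hc α := by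
  refine tsum_nonneg (fun j => ?_)
  have := sc_pos j
  positivity

lemma rough_holder (x y α : ℝ) (h0 : 0 < α) (h1 : α < 1) :
    |rough x - rough y| ≤ hc α * |x - y| ^ α := by
  unfold rough hc
  rw [← (summable_term x).tsum_sub (summable_term y), ← tsum_mul_right]
  have hs := (summable_coef α h1).mul_right (|x - y| ^ α)
  have hb : ∀ j, ‖term x j - term y j‖ ≤ (3 ^ j * sc j ^ (α - 1)) * |x - y| ^ α :=
    fun j => term_sub x y α h0 h1 j
  have hn : Summable (fun j => ‖term x j - term y j‖) := Summable.of_nonneg_of_le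
    (fun _ => norm_nonneg _) hb hs
  calc |∑' j, (term x j - term y j)| ≤ ∑' j, ‖term x j - term y j‖ := norm_tsum_le_tsum_norm hn
    _ ≤ ∑' j, (3 ^ j * sc j ^ (α - 1)) * |x - y| ^ α := hn.tsum_le_tsum hb hs

/-- grid points of level `j` -/
noncomputable def grid (j : ℕ) (m : ℤ) : ℝ := (m : ℝ) / (2 * sc j)

lemma term_grid_high {j i : ℕ} (h : j < i) (m : ℤ) : term (grid j m) i = 0 := by
  have hk : j ^ 2 + 1 ≤ i ^ 2 := by nlinarith
  obtain ⟨k, hk'⟩ := Nat.exists_eq_add_of_le hk
  have e : sc i * grid j m = ((m * 2 ^ k : ℤ) : ℝ) := by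
    unfold sc grid sc
    rw [hk', pow_add, pow_add]
    push_cast
    have : (2 : ℝ) ^ (j ^ 2) ≠ 0 := by positivity
    field_simp
  unfold term
  rw [e, tooth_int, mul_zero]

lemma rough_grid (j : ℕ) (m : ℤ) :
    rough (grid j m) = ∑ i ∈ Finset.range (j + 1), term (grid j m) i := by
  unfold rough
  apply tsum_eq_sum
  intro i hi
  apply term_grid_high
  simpa using hi

lemma geo3 (j : ℕ) : ∑ i ∈ Finset.range j, (3 : ℝ) ^ i ≤ 3 ^ j / 2 := by
  rw [geom_sum_eq (by norm_num)]
  have : (0 : ℝ) < 3 ^ j := by positivity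
  linarith

lemma rough_step (j : ℕ) (m : ℤ) :
    3 ^ j / (4 * sc j) ≤ |rough (grid j (m + 1)) - rough (grid j m)| := by
  have hs := sc_pos j
  rw [rough_grid, rough_grid, ← Finset.sum_sub_distrib, Finset.sum_range_succ]
  have hgap : grid j (m + 1) - grid j m = 1 / (2 * sc j) := by
    unfold grid; push_cast; ring
  have hlow : |∑ i ∈ Finset.range j, (term (grid j (m + 1)) i - term (grid j m) i)|
      ≤ 3 ^ j / (4 * sc j) := by
    calc |∑ i ∈ Finset.range j, (term (grid j (m + 1)) i - term (grid j m) i)|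
        ≤ ∑ i ∈ Finset.range j, |term (grid j (m + 1)) i - term (grid j m) i| :=
          Finset.abs_sum_le_sum_abs _ _
      _ ≤ ∑ i ∈ Finset.range j, (3 : ℝ) ^ i * (1 / (2 * sc j)) := by
          apply Finset.sum_le_sum
          intro i _
          have hsi := sc_pos i
          have e : term (grid j (m + 1)) i - term (grid j m) i
              = 3 ^ i / sc i * (tooth (sc i * grid j (m + 1)) - tooth (sc i * grid j m)) := by
            unfold term; ring
          rw [e, abs_mul, abs_of_nonneg (by positivity : (0 : ℝ) ≤ 3 ^ i / sc i)]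
          have h2 : |tooth (sc i * grid j (m + 1)) - tooth (sc i * grid j m)|
              ≤ sc i * (1 / (2 * sc j)) := by
            refine (tooth_lip _ _).trans ?_
            rw [← mul_sub, hgap, abs_mul, abs_of_pos hsi, abs_of_pos (by positivity)]
          calc 3 ^ i / sc i * |tooth (sc i * grid j (m + 1)) - tooth (sc i * grid j m)|
              ≤ 3 ^ i / sc i * (sc i * (1 / (2 * sc j))) := by gcongr
            _ = (3 : ℝ) ^ i * (1 / (2 * sc j)) := by field_simp
      _ = (∑ i ∈ Finset.range j, (3 : ℝ) ^ i) * (1 / (2 * sc j)) := by rw [Finset.sum_mul]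
      _ ≤ (3 ^ j / 2) * (1 / (2 * sc j)) := by
          have := geo3 j
          gcongr
      _ = 3 ^ j / (4 * sc j) := by field_simp; norm_num
  have htop : |term (grid j (m + 1)) j - term (grid j m) j| = 3 ^ j / (2 * sc j) := by
    have e1 : sc j * grid j (m + 1) = ((m + 1 : ℤ) : ℝ) / 2 := by
      unfold grid; field_simp
    have e2 : sc j * grid j m = (m : ℝ) / 2 := by
      unfold grid; field_simp
    have e : term (grid j (m + 1)) j - term (grid j m) j
        = 3 ^ j / sc j * (tooth (((m + 1 : ℤ) : ℝ) / 2) - tooth ((m : ℝ) / 2)) := by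
      unfold term; rw [e1, e2]; ring
    rw [e, abs_mul, tooth_half_step, abs_of_nonneg (by positivity)]
    field_simp
  set S := ∑ i ∈ Finset.range j, (term (grid j (m + 1)) i - term (grid j m) i)
  set D := term (grid j (m + 1)) j - term (grid j m) j
  have h3 : |D| ≤ |S + D| + |S| := by
    calc |D| = |(S + D) - S| := by ring_nf
      _ ≤ |S + D| + |S| := abs_sub _ _
  have h4 : (3 : ℝ) ^ j / (2 * sc j) = 3 ^ j / (4 * sc j) + 3 ^ j / (4 * sc j) := by
    field_simp; norm_num
  linarith [htop]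

/-- variation over a grid of level `j` inside an interval -/
lemma variation_ge (c d : ℝ) (j : ℕ) (hj : 2 ≤ sc j * (d - c)) :
    ENNReal.ofReal ((d - c) * 3 ^ j / 4) ≤ eVariationOn rough (Icc c d) := by
  have hs := sc_pos j
  set M : ℤ := ⌈2 * sc j * c⌉ with hM
  set N : ℕ := (⌊2 * sc j * d⌋ - M).toNat with hN
  have h1 : (M : ℝ) < 2 * sc j * c + 1 := Int.ceil_lt_add_one _
  have h1' : 2 * sc j * c ≤ (M : ℝ) := Int.le_ceil _
  have h2 : 2 * sc j * d - 1 < (⌊2 * sc j * d⌋ : ℝ) := Int.sub_one_lt_floor _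
  have h2' : (⌊2 * sc j * d⌋ : ℝ) ≤ 2 * sc j * d := Int.floor_le _
  have h3 : (0 : ℝ) < (⌊2 * sc j * d⌋ : ℝ) - M := by nlinarith
  have h4 : (0 : ℤ) ≤ ⌊2 * sc j * d⌋ - M := by
    have : (0 : ℝ) < ((⌊2 * sc j * d⌋ - M : ℤ) : ℝ) := by push_cast; exact h3
    exact_mod_cast this.le
  have hNr : (N : ℝ) = (⌊2 * sc j * d⌋ : ℝ) - M := by
    have : ((N : ℤ) : ℝ) = ((⌊2 * sc j * d⌋ - M : ℤ) : ℝ) := by rw [hN, Int.toNat_of_nonneg h4]
    push_cast at this
    exact this
  have hNlow : sc j * (d - c) ≤ N := by rw [hNr]; nlinarith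
  have hsum : ∑ i ∈ Finset.range N, edist (rough (grid j (M + (i + 1 : ℕ)))) (rough (grid j (M + (i : ℕ))))
      ≤ eVariationOn rough (Icc c d) := by
    refine eVariationOn.sum_le_of_monotoneOn_Iic (u := fun i : ℕ => grid j (M + (i : ℕ))) ?_ ?_
    · intro a _ b _ hab
      unfold grid
      have : ((M + (a : ℕ) : ℤ) : ℝ) ≤ ((M + (b : ℕ) : ℤ) : ℝ) := by
        push_cast
        have : (a : ℝ) ≤ b := by exact_mod_cast hab
        linarith
      exact div_le_div_of_nonneg_right this (by positivity)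
    · intro i hi
      have hi' : (i : ℝ) ≤ N := by exact_mod_cast hi
      have hi0 : (0 : ℝ) ≤ i := Nat.cast_nonneg _
      unfold grid
      push_cast
      constructor
      · rw [le_div_iff₀ (by positivity)]; nlinarith
      · rw [div_le_iff₀ (by positivity)]; nlinarith
  have hterm : ∀ i ∈ Finset.range N, ENNReal.ofReal (3 ^ j / (4 * sc j))
      ≤ edist (rough (grid j (M + (i + 1 : ℕ)))) (rough (grid j (M + (i : ℕ)))) := by
    intro i _
    rw [edist_dist, Real.dist_eq]
    apply ENNReal.ofReal_le_ofReal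
    have := rough_step j (M + (i : ℕ))
    have e : (M + ((i + 1 : ℕ) : ℤ)) = M + (i : ℕ) + 1 := by push_cast; ring
    rw [e]; exact this
  refine le_trans ?_ ((Finset.sum_le_sum hterm).trans hsum)
  rw [Finset.sum_const, Finset.card_range, ← ENNReal.ofReal_nsmul]
  apply ENNReal.ofReal_le_ofReal
  rw [nsmul_eq_mul]
  have h5 : (d - c) * 3 ^ j / 4 = (sc j * (d - c)) * (3 ^ j / (4 * sc j)) := by
    field_simp
  rw [h5]
  have : (0 : ℝ) ≤ 3 ^ j / (4 * sc j) := by positivity
  exact mul_le_mul_of_nonneg_right hNlow this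

lemma le_sc (j : ℕ) : (j : ℝ) ≤ sc j := by
  unfold sc
  have h : j < 2 ^ j := Nat.lt_two_pow_self
  have h2 : 2 ^ j ≤ 2 ^ (j ^ 2) := Nat.pow_le_pow_right (by norm_num) (by nlinarith)
  have h3 : j ≤ 2 ^ (j ^ 2) := h.le.trans h2
  exact_mod_cast h3

/-- unbounded variation of the rough function on every nondegenerate interval -/
lemma rough_top {c d : ℝ} (h : c < d) : eVariationOn rough (Icc c d) = ⊤ := by
  apply ENNReal.eq_top_of_forall_nnreal_le
  intro B
  obtain ⟨j1, hj1⟩ := exists_nat_gt (2 / (d - c))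
  obtain ⟨j2, hj2⟩ := exists_nat_gt (4 * (B : ℝ) / (d - c))
  set j := max j1 j2
  have hd : 0 < d - c := sub_pos.mpr h
  have hj1' : 2 / (d - c) ≤ (j : ℝ) := hj1.le.trans (by exact_mod_cast le_max_left j1 j2)
  have hj2' : 4 * (B : ℝ) / (d - c) ≤ (j : ℝ) := hj2.le.trans (by exact_mod_cast le_max_right j1 j2)
  have h1 : 2 ≤ sc j * (d - c) := by
    rw [div_le_iff₀ hd] at hj1'
    have := le_sc j
    nlinarith
  have h3 : (j : ℝ) ≤ 3 ^ j := by
    have : j < 3 ^ j := Nat.lt_pow_self (by norm_num)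
    exact_mod_cast this.le
  refine le_trans ?_ (variation_ge c d j h1)
  have hB : (B : ℝ) ≤ (d - c) * 3 ^ j / 4 := by
    rw [div_le_iff₀ hd] at hj2'
    nlinarith
  calc (B : ℝ≥0∞) = ENNReal.ofReal (B : ℝ) := by simp
    _ ≤ _ := ENNReal.ofReal_le_ofReal hB

/-! ### Curves -/

/-- core lemma: the rough function of a continuous function that goes up has unbounded variation -/
lemma comp_top_aux {h : ℝ → ℝ} {s t : ℝ} (hst : s ≤ t) (hc : ContinuousOn h (Icc s t))
    (hlt : h s < h t) : eVariationOn (fun x => rough (h x)) (Icc s t) = ⊤ := by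
  have hA : ∀ u ∈ Icc (h s) (h t), ∃ m ∈ Icc s t, h m = u ∧ ∀ x ∈ Icc s t, u ≤ h x → m ≤ x := by
    intro u hu
    have hclosed : IsClosed {x | x ∈ Icc s t ∧ u ≤ h x} := by
      have := hc.preimage_isClosed_of_isClosed isClosed_Icc (isClosed_Ici (a := u))
      exact this
    have hne : {x | x ∈ Icc s t ∧ u ≤ h x}.Nonempty := ⟨t, right_mem_Icc.mpr hst, hu.2⟩
    have hbdd : BddBelow {x | x ∈ Icc s t ∧ u ≤ h x} := ⟨s, fun x hx => hx.1.1⟩
    have hm := hclosed.csInf_mem hne hbdd
    set m := sInf {x | x ∈ Icc s t ∧ u ≤ h x} with hmdef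
    refine ⟨m, hm.1, ?_, fun x hx hux => csInf_le hbdd ⟨hx, hux⟩⟩
    apply le_antisymm _ hm.2
    by_contra hcon
    push Not at hcon
    have hsub : Icc s m ⊆ Icc s t := Icc_subset_Icc_right hm.1.2
    have hivt := intermediate_value_Icc hm.1.1 (hc.mono hsub)
    obtain ⟨x, hx, hxu⟩ := hivt ⟨hu.1, hcon.le⟩
    have hxm : m ≤ x := csInf_le hbdd ⟨hsub hx, hxu.ge⟩
    have : x = m := le_antisymm hx.2 hxm
    rw [this] at hxu
    linarith
  choose! τ hτ1 hτ2 hτ3 using hA
  have hmono : MonotoneOn τ (Icc (h s) (h t)) := by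
    intro u hu v hv huv
    exact hτ3 u hu (τ v) (hτ1 v hv) (by rw [hτ2 v hv]; exact huv)
  have hmaps : MapsTo τ (Icc (h s) (h t)) (Icc s t) := fun u hu => hτ1 u hu
  have h1 := eVariationOn.comp_le_of_monotoneOn (fun x => rough (h x)) τ hmono hmaps
  have h2 : eVariationOn ((fun x => rough (h x)) ∘ τ) (Icc (h s) (h t))
      = eVariationOn rough (Icc (h s) (h t)) := by
    apply eVariationOn.congr
    intro u hu
    simp only [Function.comp_apply, hτ2 u hu]
  rw [h2, rough_top hlt] at h1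
  exact top_le_iff.mp h1

lemma comp_top {h : ℝ → ℝ} {a b : ℝ} (hc : ContinuousOn h (Icc a b))
    {s t : ℝ} (hs : s ∈ Icc a b) (ht : t ∈ Icc a b) (hne : h s ≠ h t) :
    eVariationOn (fun x => rough (h x)) (Icc a b) = ⊤ := by
  wlog hst : s ≤ t generalizing s t
  · exact this ht hs hne.symm (not_le.mp hst).le
  have hsub : Icc s t ⊆ Icc a b := Icc_subset_Icc hs.1 ht.2
  have hc' := hc.mono hsub
  have key : eVariationOn (fun x => rough (h x)) (Icc s t) = ⊤ := by
    rcases lt_or_gt_of_ne hne with hlt | hlt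
    · exact comp_top_aux hst hc' hlt
    · have hr : ContinuousOn (fun x => h (s + t - x)) (Icc s t) := by
        refine hc'.comp (by fun_prop) ?_
        intro x hx
        exact ⟨by linarith [hx.2], by linarith [hx.1]⟩
      have h1 := comp_top_aux (h := fun x => h (s + t - x)) hst hr (by simpa using hlt)
      have hanti : AntitoneOn (fun x => s + t - x) (Icc s t) := by
        intro x _ y _ hxy
        simp only
        linarith
      have hmaps : MapsTo (fun x => s + t - x) (Icc s t) (Icc s t) := by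
        intro x hx
        exact ⟨by linarith [hx.2], by linarith [hx.1]⟩
      have h2 := eVariationOn.comp_le_of_antitoneOn (fun x => rough (h x)) (fun x => s + t - x)
        hanti hmaps
      have h3 : eVariationOn ((fun x => rough (h x)) ∘ (fun x => s + t - x)) (Icc s t) = ⊤ := h1
      rw [h3] at h2
      exact top_le_iff.mp h2
  exact top_le_iff.mp (key ▸ eVariationOn.mono _ hsub)

/-- comparison of variations from comparison of increments -/
lemma variation_le_mul {E F : Type*} [PseudoEMetricSpace E] [PseudoEMetricSpace F]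
    (f : ℝ → E) (g : ℝ → F) (s : Set ℝ) (K : ℝ≥0∞)
    (h : ∀ x ∈ s, ∀ y ∈ s, edist (f x) (f y) ≤ K * edist (g x) (g y)) :
    eVariationOn f s ≤ K * eVariationOn g s := by
  unfold eVariationOn
  refine iSup_le (fun p => ?_)
  calc ∑ i ∈ Finset.range p.1, edist (f (p.2.1 (i + 1))) (f (p.2.1 i))
      ≤ ∑ i ∈ Finset.range p.1, K * edist (g (p.2.1 (i + 1))) (g (p.2.1 i)) :=
        Finset.sum_le_sum (fun i _ => h _ (p.2.2.2 _) _ (p.2.2.2 _))
    _ = K * ∑ i ∈ Finset.range p.1, edist (g (p.2.1 (i + 1))) (g (p.2.1 i)) := by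
        rw [Finset.mul_sum]
    _ ≤ _ := by
        gcongr
        exact le_iSup (fun p : ℕ × { u : ℕ → ℝ // Monotone u ∧ ∀ i, u i ∈ s } =>
          ∑ i ∈ Finset.range p.1, edist (g (p.2.1 (i + 1))) (g (p.2.1 i))) p

/-- variation of a difference -/
lemma variation_sub_le (f g : ℝ → ℝ) (s : Set ℝ) :
    eVariationOn (fun x => f x - g x) s ≤ eVariationOn f s + eVariationOn g s := by
  unfold eVariationOn
  refine iSup_le (fun p => ?_)
  calc ∑ i ∈ Finset.range p.1, edist (f (p.2.1 (i + 1)) - g (p.2.1 (i + 1)))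
        (f (p.2.1 i) - g (p.2.1 i))
      ≤ ∑ i ∈ Finset.range p.1, (edist (f (p.2.1 (i + 1))) (f (p.2.1 i))
          + edist (g (p.2.1 (i + 1))) (g (p.2.1 i))) := by
        refine Finset.sum_le_sum (fun i _ => ?_)
        rw [edist_dist, edist_dist, edist_dist, ← ENNReal.ofReal_add dist_nonneg dist_nonneg]
        exact ENNReal.ofReal_le_ofReal (dist_sub_sub_le _ _ _ _)
    _ = ∑ i ∈ Finset.range p.1, edist (f (p.2.1 (i + 1))) (f (p.2.1 i))
          + ∑ i ∈ Finset.range p.1, edist (g (p.2.1 (i + 1))) (g (p.2.1 i)) :=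
        Finset.sum_add_distrib
    _ ≤ _ := by
        gcongr
        · exact le_iSup (fun p : ℕ × { u : ℕ → ℝ // Monotone u ∧ ∀ i, u i ∈ s } =>
            ∑ i ∈ Finset.range p.1, edist (f (p.2.1 (i + 1))) (f (p.2.1 i))) p
        · exact le_iSup (fun p : ℕ × { u : ℕ → ℝ // Monotone u ∧ ∀ i, u i ∈ s } =>
            ∑ i ∈ Finset.range p.1, edist (g (p.2.1 (i + 1))) (g (p.2.1 i))) p

/-- adding a function of bounded variation does not destroy infinite variation -/
lemma add_top {f g : ℝ → ℝ} {s : Set ℝ} (hf : eVariationOn f s ≠ ⊤) (hg : eVariationOn g s = ⊤) :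
    eVariationOn (fun x => f x + g x) s = ⊤ := by
  by_contra hcon
  have h := variation_sub_le (fun x => f x + g x) f s
  have e : (fun x => (f x + g x) - f x) = g := by funext x; ring
  rw [e, hg, top_le_iff] at h
  exact (ENNReal.add_ne_top.mpr ⟨hcon, hf⟩) h

/-! ### Local Hoelder maps of every exponent below one -/

/-- on every ball, Hoelder of every exponent below one -/
def LH {X Y : Type*} [SeminormedAddCommGroup X] [SeminormedAddCommGroup Y] (g : X → Y) : Prop :=
  ∀ β : ℝ, 0 < β → β < 1 → ∀ R : ℝ, ∃ C : ℝ, 0 ≤ C ∧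
    ∀ x y, ‖x‖ ≤ R → ‖y‖ ≤ R → ‖g x - g y‖ ≤ C * ‖x - y‖ ^ β

section LHsec

variable {X Y Z : Type*} [SeminormedAddCommGroup X] [SeminormedAddCommGroup Y]
  [SeminormedAddCommGroup Z]

lemma LH.of_lip {g : X → Y} (K : ℝ) (hK : 0 ≤ K) (h : ∀ x y, ‖g x - g y‖ ≤ K * ‖x - y‖) :
    LH g := by
  intro β h0 h1 R
  refine ⟨K * (2 * |R|) ^ (1 - β), by positivity, fun x y hx hy => ?_⟩
  have hD : ‖x - y‖ ≤ 2 * |R| := by
    have := norm_sub_le x y
    have := le_abs_self R
    linarith
  have hp : ‖x - y‖ ≤ (2 * |R|) ^ (1 - β) * ‖x - y‖ ^ β := by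
    rcases (norm_nonneg (x - y)).eq_or_lt with h3 | h3
    · rw [← h3]; positivity
    · calc ‖x - y‖ = ‖x - y‖ ^ (1 - β) * ‖x - y‖ ^ β := by
            rw [← Real.rpow_add h3]; simp
        _ ≤ (2 * |R|) ^ (1 - β) * ‖x - y‖ ^ β := by
            have := Real.rpow_le_rpow h3.le hD (by linarith : (0 : ℝ) ≤ 1 - β)
            gcongr
  calc ‖g x - g y‖ ≤ K * ‖x - y‖ := h x y
    _ ≤ K * ((2 * |R|) ^ (1 - β) * ‖x - y‖ ^ β) := by gcongr
    _ = _ := by ring

lemma LH.bound {f : X → Y} (hf : LH f) (R : ℝ) : ∃ R', ∀ x, ‖x‖ ≤ R → ‖f x‖ ≤ R' := by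
  obtain ⟨C, hC, h⟩ := hf (1 / 2) (by norm_num) (by norm_num) R
  refine ⟨‖f 0‖ + C * |R| ^ (1 / 2 : ℝ), fun x hx => ?_⟩
  have hR : 0 ≤ R := (norm_nonneg x).trans hx
  have h2 := h x 0 hx (by simpa using hR)
  rw [sub_zero] at h2
  have h3 : ‖x‖ ^ (1 / 2 : ℝ) ≤ |R| ^ (1 / 2 : ℝ) :=
    Real.rpow_le_rpow (norm_nonneg _) (hx.trans (le_abs_self R)) (by norm_num)
  have h4 : ‖f x‖ ≤ ‖f x - f 0‖ + ‖f 0‖ := by
    simpa using norm_add_le (f x - f 0) (f 0)
  nlinarith [mul_le_mul_of_nonneg_left h3 hC]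

lemma LH.comp {g : Y → Z} {f : X → Y} (hg : LH g) (hf : LH f) : LH (fun x => g (f x)) := by
  intro β h0 h1 R
  have hs0 : 0 < √β := Real.sqrt_pos.mpr h0
  have hs1 : √β < 1 := by rw [Real.sqrt_lt' one_pos]; simpa using h1
  obtain ⟨R', hR'⟩ := hf.bound R
  obtain ⟨C1, hC1, h1'⟩ := hf (√β) hs0 hs1 R
  obtain ⟨C2, hC2, h2'⟩ := hg (√β) hs0 hs1 R'
  refine ⟨C2 * C1 ^ (√β), by positivity, fun x y hx hy => ?_⟩
  calc ‖g (f x) - g (f y)‖ ≤ C2 * ‖f x - f y‖ ^ (√β) := h2' _ _ (hR' x hx) (hR' y hy)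
    _ ≤ C2 * (C1 * ‖x - y‖ ^ (√β)) ^ (√β) := by
        have := Real.rpow_le_rpow (norm_nonneg _) (h1' x y hx hy) hs0.le
        gcongr
    _ = C2 * C1 ^ (√β) * ‖x - y‖ ^ β := by
        rw [Real.mul_rpow hC1 (by positivity), ← Real.rpow_mul (norm_nonneg _),
          Real.mul_self_sqrt h0.le]
        ring

lemma LH.add {f g : X → Y} (hf : LH f) (hg : LH g) : LH (fun x => f x + g x) := by
  intro β h0 h1 R
  obtain ⟨C1, hC1, h1'⟩ := hf β h0 h1 R
  obtain ⟨C2, hC2, h2'⟩ := hg β h0 h1 R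
  refine ⟨C1 + C2, by positivity, fun x y hx hy => ?_⟩
  have e : f x + g x - (f y + g y) = (f x - f y) + (g x - g y) := by abel
  rw [e, add_mul]
  exact (norm_add_le _ _).trans (add_le_add (h1' x y hx hy) (h2' x y hx hy))

lemma LH.sub {f g : X → Y} (hf : LH f) (hg : LH g) : LH (fun x => f x - g x) := by
  intro β h0 h1 R
  obtain ⟨C1, hC1, h1'⟩ := hf β h0 h1 R
  obtain ⟨C2, hC2, h2'⟩ := hg β h0 h1 R
  refine ⟨C1 + C2, by positivity, fun x y hx hy => ?_⟩
  have e : f x - g x - (f y - g y) = (f x - f y) - (g x - g y) := by abel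
  rw [e, add_mul]
  exact (norm_sub_le _ _).trans (add_le_add (h1' x y hx hy) (h2' x y hx hy))

lemma LH.continuous {f : X → Y} (hf : LH f) : Continuous f := by
  rw [continuous_iff_continuousAt]
  intro x
  obtain ⟨C, hC, h⟩ := hf (1 / 2) (by norm_num) (by norm_num) (‖x‖ + 1)
  rw [ContinuousAt, tendsto_iff_norm_sub_tendsto_zero]
  have hball : ∀ᶠ y in 𝓝 x, ‖y‖ ≤ ‖x‖ + 1 := by
    filter_upwards [Metric.ball_mem_nhds x one_pos] with y hy
    have h1 : ‖y - x‖ < 1 := by simpa [dist_eq_norm] using hy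
    have h2 : ‖y‖ ≤ ‖y - x‖ + ‖x‖ := by simpa using norm_add_le (y - x) x
    linarith
  have hlim : Tendsto (fun y => C * ‖y - x‖ ^ (1 / 2 : ℝ)) (𝓝 x) (𝓝 0) := by
    have h1 : Tendsto (fun y => ‖y - x‖) (𝓝 x) (𝓝 0) := by
      have := (continuous_id.sub (continuous_const (y := x))).norm.tendsto x
      simpa using this
    have h2 := (h1.rpow_const (p := (1 / 2 : ℝ)) (Or.inr (by norm_num))).const_mul C
    simpa using h2
  refine squeeze_zero' (Eventually.of_forall fun _ => norm_nonneg _) ?_ hlim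
  filter_upwards [hball] with y hy
  exact h y x hy (by linarith [norm_nonneg x])

end LHsec

lemma LH.pi {X : Type*} [SeminormedAddCommGroup X] {n : ℕ} {g : X → Fin n → ℝ}
    (h : ∀ i, LH (fun x => g x i)) : LH g := by
  intro β h0 h1 R
  choose C hC hb using fun i => h i β h0 h1 R
  refine ⟨∑ i, C i, Finset.sum_nonneg (fun i _ => hC i), fun x y hx hy => ?_⟩
  have hS : (0 : ℝ) ≤ ∑ i, C i := Finset.sum_nonneg (fun i _ => hC i)
  rw [pi_norm_le_iff_of_nonneg (by positivity)]
  intro i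
  refine (hb i x y hx hy).trans ?_
  have : C i ≤ ∑ i, C i := Finset.single_le_sum (fun i _ => hC i) (Finset.mem_univ i)
  exact mul_le_mul_of_nonneg_right this (by positivity)

lemma LH.eval {n : ℕ} (i : Fin n) : LH (fun x : Fin n → ℝ => x i) := by
  refine LH.of_lip 1 zero_le_one (fun x y => ?_)
  rw [one_mul]
  exact norm_le_pi_norm (x - y) i

lemma LH.clm {X Y : Type*} [NormedAddCommGroup X] [NormedSpace ℝ X] [NormedAddCommGroup Y]
    [NormedSpace ℝ Y] (L : X →L[ℝ] Y) : LH (fun x => L x) := by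
  refine LH.of_lip ‖L‖ (norm_nonneg _) (fun x y => ?_)
  rw [← map_sub]
  exact L.le_opNorm _

lemma LH.cle {X Y : Type*} [NormedAddCommGroup X] [NormedSpace ℝ X] [NormedAddCommGroup Y]
    [NormedSpace ℝ Y] (L : X ≃L[ℝ] Y) : LH (fun x => L x) := LH.clm (L : X →L[ℝ] Y)

lemma LH.rough : LH (X := ℝ) (Y := ℝ) rough := by
  intro β h0 h1 R
  refine ⟨hc β, hc_nonneg β, fun x y _ _ => ?_⟩
  simpa [Real.norm_eq_abs] using rough_holder x y β h0 h1

/-! ### The shear maps -/

variable {m : ℕ}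

/-- first shear -/
noncomputable def S1 (x : Fin (m + 2) → ℝ) : Fin (m + 2) → ℝ :=
  Fin.cons (x 0) (fun j : Fin (m + 1) => x j.succ + rough (x j.castSucc))

/-- second shear -/
noncomputable def S2 (y : Fin (m + 2) → ℝ) : Fin (m + 2) → ℝ :=
  Fin.cons (y 0 + rough (y (Fin.last m).succ)) (fun j : Fin (m + 1) => y j.succ)

/-- inverse of the second shear -/
noncomputable def G2 (y : Fin (m + 2) → ℝ) : Fin (m + 2) → ℝ :=
  Fin.cons (y 0 - rough (y (Fin.last m).succ)) (fun j : Fin (m + 1) => y j.succ)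

/-- inverse of the first shear -/
noncomputable def G1 (y : Fin (m + 2) → ℝ) (i : Fin (m + 2)) : ℝ :=
  Fin.induction (motive := fun _ => ℝ) (y 0) (fun j xj => y j.succ - rough xj) i

lemma G1_zero (y : Fin (m + 2) → ℝ) : G1 y 0 = y 0 := rfl

lemma G1_succ (y : Fin (m + 2) → ℝ) (j : Fin (m + 1)) :
    G1 y j.succ = y j.succ - rough (G1 y j.castSucc) := rfl

lemma G1_S1 (x : Fin (m + 2) → ℝ) : G1 (S1 x) = x := by
  funext i
  induction i using Fin.induction with
  | zero => rfl
  | succ j ih => rw [G1_succ, ih]; simp [S1]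

lemma G2_S2 (y : Fin (m + 2) → ℝ) : G2 (S2 y) = y := by
  funext i
  refine Fin.cases ?_ (fun j => ?_) i
  · simp [G2, S2]
  · simp [G2, S2]

lemma LH_S1 : LH (S1 (m := m)) := by
  refine LH.pi (fun i => ?_)
  refine Fin.cases ?_ (fun j => ?_) i
  · simpa [S1] using LH.eval (n := m + 2) 0
  · simpa [S1] using (LH.eval (n := m + 2) j.succ).add (LH.rough.comp (LH.eval j.castSucc))

lemma LH_S2 : LH (S2 (m := m)) := by
  refine LH.pi (fun i => ?_)
  refine Fin.cases ?_ (fun j => ?_) i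
  · simpa [S2] using (LH.eval (n := m + 2) 0).add (LH.rough.comp (LH.eval (Fin.last m).succ))
  · simpa [S2] using (LH.eval (n := m + 2) j.succ)

lemma LH_G2 : LH (G2 (m := m)) := by
  refine LH.pi (fun i => ?_)
  refine Fin.cases ?_ (fun j => ?_) i
  · simpa [G2] using (LH.eval (n := m + 2) 0).sub (LH.rough.comp (LH.eval (Fin.last m).succ))
  · simpa [G2] using (LH.eval (n := m + 2) j.succ)

lemma LH_G1 : LH (G1 (m := m)) := by
  refine LH.pi (fun i => ?_)
  induction i using Fin.induction with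
  | zero => exact LH.eval 0
  | succ j ih =>
    simp only [G1_succ]
    exact (LH.eval (n := m + 2) j.succ).sub (LH.rough.comp ih)

/-- the rough homeomorphism -/
noncomputable def F (x : Fin (m + 2) → ℝ) : Fin (m + 2) → ℝ := S2 (S1 x)

/-- its inverse -/
noncomputable def G (x : Fin (m + 2) → ℝ) : Fin (m + 2) → ℝ := G1 (G2 x)

lemma G_F (x : Fin (m + 2) → ℝ) : G (F x) = x := by
  unfold G F
  rw [G2_S2, G1_S1]

lemma LH_F : LH (F (m := m)) := LH_S2.comp LH_S1

lemma LH_G : LH (G (m := m)) := LH_G1.comp LH_G2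

lemma F_emb : IsEmbedding (F (m := m)) :=
  Function.LeftInverse.isEmbedding G_F LH_G.continuous LH_F.continuous

lemma F_zero (x : Fin (m + 2) → ℝ) :
    F x 0 = x 0 + rough (x (Fin.last m).succ + rough (x (Fin.last m).castSucc)) := by
  simp [F, S1, S2]

lemma F_succ (x : Fin (m + 2) → ℝ) (j : Fin (m + 1)) :
    F x j.succ = x j.succ + rough (x j.castSucc) := by
  simp [F, S1, S2]

/-- some coordinate of the image of a nonconstant rectifiable curve has infinite variation -/
lemma F_top {a b : ℝ} (c : ℝ → Fin (m + 2) → ℝ) (hc : ∀ i, ContinuousOn (fun t => c t i) (Icc a b))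
    (hv : ∀ i, eVariationOn (fun t => c t i) (Icc a b) ≠ ⊤)
    (hne : ∃ s ∈ Icc a b, ∃ t ∈ Icc a b, c s ≠ c t) :
    ∃ i, eVariationOn (fun t => F (c t) i) (Icc a b) = ⊤ := by
  by_cases hA : ∃ j : Fin (m + 1), ∃ s ∈ Icc a b, ∃ t ∈ Icc a b, c s j.castSucc ≠ c t j.castSucc
  · obtain ⟨j, s, hs, t, ht, hst⟩ := hA
    refine ⟨j.succ, ?_⟩
    simp only [F_succ]
    exact add_top (hv j.succ) (comp_top (hc j.castSucc) hs ht hst)
  · push Not at hA
    obtain ⟨s, hs, t, ht, hst⟩ := hne
    have hlast : c s (Fin.last m).succ ≠ c t (Fin.last m).succ := by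
      intro heq
      apply hst
      funext i
      refine Fin.lastCases ?_ (fun j => hA j s hs t ht) i
      simpa using heq
    refine ⟨0, ?_⟩
    simp only [F_zero]
    refine add_top (hv 0) ?_
    set k := rough (c s (Fin.last m).castSucc) with hk
    have hconst : ∀ x ∈ Icc a b, rough (c x (Fin.last m).castSucc) = k := by
      intro x hx
      rw [hk, hA (Fin.last m) x hx s hs]
    have e : eVariationOn (fun x => rough (c x (Fin.last m).succ
        + rough (c x (Fin.last m).castSucc))) (Icc a b)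
        = eVariationOn (fun x => rough (c x (Fin.last m).succ + k)) (Icc a b) := by
      apply eVariationOn.congr
      intro x hx
      simp only [hconst x hx]
    rw [e]
    exact comp_top (h := fun x => c x (Fin.last m).succ + k)
      ((hc _).add continuousOn_const) hs ht (by simpa using hlast)

/-! ### Squashing the space into the ball -/

/-- squash of the line -/
noncomputable def sq (c t : ℝ) : ℝ := c * (t / (1 + |t|))

lemma sq_diff {s t : ℝ} (h : s ≤ t) :
    (t - s) / ((1 + |s|) * (1 + |t|)) ≤ t / (1 + |t|) - s / (1 + |s|) ∧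
    t / (1 + |t|) - s / (1 + |s|) ≤ t - s := by
  have h1 : 0 < 1 + |s| := by positivity
  have h2 : 0 < 1 + |t| := by positivity
  have e : t / (1 + |t|) - s / (1 + |s|) = (t - s + (t * |s| - s * |t|)) / ((1 + |s|) * (1 + |t|)) := by
    field_simp
    ring
  have h3 : 0 ≤ t * |s| - s * |t| := by
    rcases le_total 0 s with hs | hs <;> rcases le_total 0 t with ht | ht
    · rw [abs_of_nonneg hs, abs_of_nonneg ht]; nlinarith
    · rw [abs_of_nonneg hs, abs_of_nonpos ht]; nlinarith
    · rw [abs_of_nonpos hs, abs_of_nonneg ht]; nlinarith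
    · rw [abs_of_nonpos hs, abs_of_nonpos ht]; nlinarith
  rw [e]
  constructor
  · gcongr
    linarith
  · rw [div_le_iff₀ (by positivity)]
    rcases le_total 0 s with hs | hs <;> rcases le_total 0 t with ht | ht
    · rw [abs_of_nonneg hs, abs_of_nonneg ht]; nlinarith [mul_nonneg (sub_nonneg.mpr h) hs,
        mul_nonneg (sub_nonneg.mpr h) ht, mul_nonneg (mul_nonneg (sub_nonneg.mpr h) hs) ht]
    · have : s = 0 := by linarith
      have : t = 0 := by linarith
      simp [*]
    · rw [abs_of_nonpos hs, abs_of_nonneg ht]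
      nlinarith [mul_nonneg (sub_nonneg.mpr h) (neg_nonneg.mpr hs),
        mul_nonneg (sub_nonneg.mpr h) ht, mul_nonneg (mul_nonneg (sub_nonneg.mpr h)
          (neg_nonneg.mpr hs)) ht, mul_nonneg (neg_nonneg.mpr hs) ht, sq_nonneg (t + s),
          sq_nonneg (t - s)]
    · rw [abs_of_nonpos hs, abs_of_nonpos ht]
      nlinarith [mul_nonneg (sub_nonneg.mpr h) (neg_nonneg.mpr hs),
        mul_nonneg (sub_nonneg.mpr h) (neg_nonneg.mpr ht), mul_nonneg (mul_nonneg
        (sub_nonneg.mpr h) (neg_nonneg.mpr hs)) (neg_nonneg.mpr ht)]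

lemma sq_strictMono {c : ℝ} (hc : 0 < c) : StrictMono (sq c) := by
  intro s t h
  have h1 := (sq_diff h.le).1
  have h2 : 0 < (t - s) / ((1 + |s|) * (1 + |t|)) := by
    have : 0 < t - s := sub_pos.mpr h
    positivity
  unfold sq
  have : 0 < t / (1 + |t|) - s / (1 + |s|) := lt_of_lt_of_le h2 h1
  nlinarith

lemma sq_bound {c : ℝ} (hc : 0 < c) (t : ℝ) : |sq c t| ≤ c := by
  unfold sq
  rw [abs_mul, abs_of_pos hc, abs_div, abs_of_pos (by positivity : 0 < 1 + |t|)]
  have : |t| / (1 + |t|) ≤ 1 := by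
    rw [div_le_one (by positivity)]; linarith
  calc c * (|t| / (1 + |t|)) ≤ c * 1 := by gcongr
    _ = c := mul_one c

lemma sq_lip {c : ℝ} (hc : 0 < c) (s t : ℝ) : |sq c s - sq c t| ≤ c * |s - t| := by
  wlog h : s ≤ t generalizing s t
  · rw [abs_sub_comm, abs_sub_comm s t]; exact this t s (not_le.mp h).le
  have h1 := (sq_diff h).2
  have h2 := (sq_strictMono hc).monotone h
  rw [abs_sub_comm, abs_of_nonneg (sub_nonneg.mpr h2), abs_sub_comm,
    abs_of_nonneg (sub_nonneg.mpr h)]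
  unfold sq
  rw [← mul_sub]
  gcongr

lemma sq_lower {c : ℝ} (hc : 0 < c) {R s t : ℝ} (hs : |s| ≤ R) (ht : |t| ≤ R) :
    |s - t| ≤ ((1 + R) ^ 2 / c) * |sq c s - sq c t| := by
  wlog h : s ≤ t generalizing s t
  · rw [abs_sub_comm, abs_sub_comm (sq c s)]; exact this ht hs (not_le.mp h).le
  have h1 := (sq_diff h).1
  have h2 := (sq_strictMono hc).monotone h
  rw [abs_sub_comm, abs_sub_comm (sq c s), abs_of_nonneg (sub_nonneg.mpr h2),
    abs_of_nonneg (sub_nonneg.mpr h)]
  have e : sq c t - sq c s = c * (t / (1 + |t|) - s / (1 + |s|)) := by unfold sq; ring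
  rw [e]
  have hR : 0 ≤ R := (abs_nonneg s).trans hs
  have h3 : (1 + |s|) * (1 + |t|) ≤ (1 + R) ^ 2 := by
    have := abs_nonneg s
    have := abs_nonneg t
    nlinarith
  rw [div_le_iff₀ (by positivity)] at h1
  have h5 : 0 ≤ t / (1 + |t|) - s / (1 + |s|) := by
    have := (sq_diff h).1
    have h6 : 0 ≤ (t - s) / ((1 + |s|) * (1 + |t|)) := by
      have : 0 ≤ t - s := sub_nonneg.mpr h
      positivity
    linarith
  calc t - s ≤ (t / (1 + |t|) - s / (1 + |s|)) * ((1 + |s|) * (1 + |t|)) := h1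
    _ ≤ (t / (1 + |t|) - s / (1 + |s|)) * (1 + R) ^ 2 := by gcongr
    _ = (1 + R) ^ 2 / c * (c * (t / (1 + |t|) - s / (1 + |s|))) := by field_simp

lemma sq_continuous (c : ℝ) : Continuous (sq c) := by
  unfold sq
  have h : ∀ t : ℝ, 1 + |t| ≠ 0 := fun t => by positivity
  fun_prop (disch := exact h _)

lemma sq_emb {c : ℝ} (hc : 0 < c) : IsEmbedding (sq c) :=
  (sq_strictMono hc).isEmbedding_of_ordConnected
    (isPreconnected_range (sq_continuous c)).ordConnected

/-- squash of all coordinates -/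
noncomputable def Sq {n : ℕ} (c : ℝ) (z : Fin n → ℝ) : Fin n → ℝ := fun i => sq c (z i)

lemma Sq_emb {n : ℕ} {c : ℝ} (hc : 0 < c) : IsEmbedding (Sq (n := n) c) :=
  IsEmbedding.piMap (fun _ => sq_emb hc)

/-- Euclidean space -/
abbrev E (n : ℕ) : Type := EuclideanSpace ℝ (Fin n)

/-- the wild embedding of the whole space into the unit ball -/
noncomputable def wild (m : ℕ) (x : E (m + 2)) : E (m + 2) :=
  (EuclideanSpace.equiv (Fin (m + 2)) ℝ).symm
    (Sq (1 / (m + 2 : ℝ)) (F (EuclideanSpace.equiv (Fin (m + 2)) ℝ x)))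

lemma cpos (m : ℕ) : (0 : ℝ) < 1 / (m + 2 : ℝ) := by positivity

lemma wild_apply (m : ℕ) (x : E (m + 2)) (i : Fin (m + 2)) :
    wild m x i = sq (1 / (m + 2 : ℝ)) (F (fun k => x k) i) := rfl

lemma wild_emb (m : ℕ) : IsEmbedding (wild m) := by
  have h1 := (EuclideanSpace.equiv (Fin (m + 2)) ℝ).symm.toHomeomorph.isEmbedding
  have h2 := (EuclideanSpace.equiv (Fin (m + 2)) ℝ).toHomeomorph.isEmbedding
  exact h1.comp ((Sq_emb (cpos m)).comp (F_emb.comp h2))

lemma wild_bound (m : ℕ) (x : E (m + 2)) : ‖wild m x‖ ≤ 1 := by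
  have h : ‖wild m x‖ ^ 2 ≤ 1 := by
    rw [EuclideanSpace.norm_sq_eq]
    calc ∑ i, ‖wild m x i‖ ^ 2 ≤ ∑ _i : Fin (m + 2), (1 / (m + 2 : ℝ)) ^ 2 := by
          refine Finset.sum_le_sum (fun i _ => ?_)
          rw [wild_apply, Real.norm_eq_abs]
          have := sq_bound (cpos m) (F (fun k => x k) i)
          gcongr
      _ = (m + 2 : ℝ) * (1 / (m + 2 : ℝ)) ^ 2 := by
          rw [Finset.sum_const, Finset.card_univ, Fintype.card_fin, nsmul_eq_mul]; push_cast; rfl
      _ = 1 / (m + 2 : ℝ) := by field_simp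
      _ ≤ 1 := by
          rw [div_le_one (by positivity)]
          have : (0 : ℝ) ≤ m := Nat.cast_nonneg m
          linarith
  exact (sq_le_one_iff₀ (norm_nonneg _)).mp h

lemma coord_le {n : ℕ} (γ : ℝ → E n) (s : Set ℝ) (i : Fin n) :
    eVariationOn (fun t => γ t i) s ≤ eVariationOn γ s := by
  have := variation_le_mul (fun t => γ t i) γ s 1 (fun x _ y _ => by
    rw [one_mul, edist_dist, edist_dist]
    apply ENNReal.ofReal_le_ofReal
    rw [dist_eq_norm, dist_eq_norm]
    exact PiLp.norm_apply_le (γ x - γ y) i)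
  simpa using this

/-- the wild embedding stretches every nonconstant rectifiable curve to infinite length -/
lemma wild_top (m : ℕ) {a b : ℝ} (γ : ℝ → E (m + 2)) (hc : ContinuousOn γ (Icc a b))
    (hv : eVariationOn γ (Icc a b) ≠ ⊤) (hne : ∃ s ∈ Icc a b, ∃ t ∈ Icc a b, γ s ≠ γ t) :
    eVariationOn (fun t => wild m (γ t)) (Icc a b) = ⊤ := by
  set c : ℝ → Fin (m + 2) → ℝ := fun t k => γ t k with hcdef
  have hcc : ∀ i, ContinuousOn (fun t => c t i) (Icc a b) := by
    intro i
    have h1 : Continuous (fun x : E (m + 2) => x i) :=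
      (EuclideanSpace.proj (𝕜 := ℝ) i).continuous
    exact h1.comp_continuousOn hc
  have hcv : ∀ i, eVariationOn (fun t => c t i) (Icc a b) ≠ ⊤ := by
    intro i h
    have := coord_le γ (Icc a b) i
    rw [h, top_le_iff] at this
    exact hv this
  have hcn : ∃ s ∈ Icc a b, ∃ t ∈ Icc a b, c s ≠ c t := by
    obtain ⟨s, hs, t, ht, hst⟩ := hne
    refine ⟨s, hs, t, ht, fun h => hst ?_⟩
    ext k
    exact congrFun h k
  obtain ⟨i, hi⟩ := F_top c hcc hcv hcn
  have hccont : ContinuousOn c (Icc a b) := continuousOn_pi.mpr hcc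
  have hq : ContinuousOn (fun t => F (c t) i) (Icc a b) :=
    ((continuous_apply i).comp LH_F.continuous).comp_continuousOn hccont
  obtain ⟨R, hR⟩ := (isCompact_Icc.image_of_continuousOn hq).isBounded.exists_norm_le
  have hR' : ∀ t ∈ Icc a b, |F (c t) i| ≤ R := fun t ht => hR _ ⟨t, ht, rfl⟩
  set K : ℝ := (1 + R) ^ 2 / (1 / (m + 2 : ℝ)) with hK
  have hcomp := variation_le_mul (fun t => F (c t) i) (fun t => wild m (γ t) i) (Icc a b)
    (ENNReal.ofReal K) (fun x hx y hy => by
      rw [edist_dist, edist_dist, Real.dist_eq, Real.dist_eq,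
        ← ENNReal.ofReal_mul (by rw [hK]; have := cpos m; positivity)]
      apply ENNReal.ofReal_le_ofReal
      exact sq_lower (cpos m) (hR' x hx) (hR' y hy))
  rw [hi, top_le_iff] at hcomp
  have h2 := coord_le (fun t => wild m (γ t)) (Icc a b) i
  by_contra hcon
  have h3 : eVariationOn (fun t => wild m (γ t) i) (Icc a b) ≠ ⊤ := fun h => by
    rw [h, top_le_iff] at h2
    exact hcon h2
  exact (ENNReal.mul_ne_top ENNReal.ofReal_ne_top h3) hcomp

/-- two-sided local Hoelder bounds for the wild embedding -/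
lemma wild_holder (m : ℕ) (β : ℝ) (h0 : 0 < β) (h1 : β < 1) (R : ℝ) :
    ∃ C : ℝ, ∀ x y : E (m + 2), ‖x‖ ≤ R → ‖y‖ ≤ R →
      ‖wild m x - wild m y‖ ≤ C * ‖x - y‖ ^ β ∧ ‖x - y‖ ≤ C * ‖wild m x - wild m y‖ ^ β := by
  set e := EuclideanSpace.equiv (Fin (m + 2)) ℝ with he
  have hFe : LH (fun x : E (m + 2) => F (e x)) := LH_F.comp (LH.cle e)
  have hSq : LH (Sq (n := m + 2) (1 / (m + 2 : ℝ))) := by
    refine LH.pi (fun i => ?_)
    have h3 : LH (X := ℝ) (Y := ℝ) (sq (1 / (m + 2 : ℝ))) := by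
      refine LH.of_lip (1 / (m + 2 : ℝ)) (cpos m).le (fun x y => ?_)
      rw [Real.norm_eq_abs, Real.norm_eq_abs]
      exact sq_lip (cpos m) x y
    exact h3.comp (LH.eval i)
  have hW : LH (wild m) := (LH.cle e.symm).comp (hSq.comp hFe)
  have hInv : LH (fun z : Fin (m + 2) → ℝ => e.symm (G z)) :=
    (LH.cle e.symm).comp LH_G
  obtain ⟨C1, hC1, hb1⟩ := hW β h0 h1 R
  obtain ⟨R', hR'⟩ := hFe.bound R
  obtain ⟨C2, hC2, hb2⟩ := hInv β h0 h1 R'
  set K : ℝ := (1 + |R'|) ^ 2 / (1 / (m + 2 : ℝ)) with hK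
  have hKpos : 0 ≤ K := by rw [hK]; have := cpos m; positivity
  refine ⟨max C1 (C2 * K ^ β), fun x y hx hy => ⟨?_, ?_⟩⟩
  · refine (hb1 x y hx hy).trans ?_
    exact mul_le_mul_of_nonneg_right (le_max_left _ _) (by positivity)
  · have h4 := hb2 (F (e x)) (F (e y)) (hR' x hx) (hR' y hy)
    simp only [G_F, ContinuousLinearEquiv.symm_apply_apply] at h4
    have h5 : ‖F (e x) - F (e y)‖ ≤ K * ‖wild m x - wild m y‖ := by
      rw [pi_norm_le_iff_of_nonneg (by positivity)]
      intro i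
      have h6 : |F (e x) i| ≤ |R'| :=
        (norm_le_pi_norm (F (e x)) i).trans ((hR' x hx).trans (le_abs_self _))
      have h7 : |F (e y) i| ≤ |R'| :=
        (norm_le_pi_norm (F (e y)) i).trans ((hR' y hy).trans (le_abs_self _))
      have h8 := sq_lower (cpos m) h6 h7
      have h9 : |sq (1 / (m + 2 : ℝ)) (F (e x) i) - sq (1 / (m + 2 : ℝ)) (F (e y) i)|
          ≤ ‖wild m x - wild m y‖ := PiLp.norm_apply_le (wild m x - wild m y) i
      calc ‖(F (e x) - F (e y)) i‖ = |F (e x) i - F (e y) i| := rfl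
        _ ≤ K * |sq (1 / (m + 2 : ℝ)) (F (e x) i) - sq (1 / (m + 2 : ℝ)) (F (e y) i)| := h8
        _ ≤ K * ‖wild m x - wild m y‖ := by gcongr
    calc ‖x - y‖ ≤ C2 * ‖F (e x) - F (e y)‖ ^ β := h4
      _ ≤ C2 * (K * ‖wild m x - wild m y‖) ^ β := by
          have := Real.rpow_le_rpow (norm_nonneg _) h5 h0.le
          gcongr
      _ = (C2 * K ^ β) * ‖wild m x - wild m y‖ ^ β := by
          rw [Real.mul_rpow hKpos (norm_nonneg _)]; ring
      _ ≤ _ := mul_le_mul_of_nonneg_right (le_max_right _ _) (by positivity)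

/-! ### Dimension one -/

/-- point of the one-dimensional Euclidean space -/
noncomputable def pt (t : ℝ) : E 1 := WithLp.toLp 2 (fun _ => t)

lemma pt_apply (t : ℝ) (i : Fin 1) : pt t i = t := rfl

lemma pt_coord (x : E 1) : pt (x 0) = x := by
  ext i
  rw [pt_apply, Fin.fin_one_eq_zero i]

lemma dist_one (x y : E 1) : dist x y = |x 0 - y 0| := by
  rw [EuclideanSpace.dist_eq]
  simp [Real.dist_eq, Real.sqrt_sq_eq_abs]

lemma pt_continuous : Continuous pt := by
  apply (PiLp.continuous_toLp 2 (fun _ : Fin 1 => ℝ)).comp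
  exact continuous_pi (fun _ => continuous_id)

lemma coord_continuous : Continuous (fun x : E 1 => x 0) :=
  (EuclideanSpace.proj (𝕜 := ℝ) (0 : Fin 1)).continuous

lemma pt_emb : IsEmbedding pt :=
  Function.LeftInverse.isEmbedding (f := fun x : E 1 => x 0) (fun _ => rfl) coord_continuous
    pt_continuous

lemma volume_pt (U : Set (E 1)) (hU : IsOpen U) : volume (pt ⁻¹' U) = volume U := by
  have h : MeasurePreserving pt volume volume :=
    (PiLp.volume_preserving_toLp (Fin 1)).comp (volume_preserving_funUnique (Fin 1) ℝ).symm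
  exact h.measure_preimage hU.measurableSet.nullMeasurableSet

/-- the amount of `V` to the left of `t` -/
noncomputable def slide (V : Set ℝ) (t : ℝ) : ℝ := (volume (V ∩ Iio t)).toReal

section slidesec

variable {V : Set ℝ} (hV : IsOpen V) (hvol : volume V ≤ 1)

include hvol in
lemma slide_fin (t : ℝ) : volume (V ∩ Iio t) ≠ ⊤ :=
  ne_top_of_le_ne_top ENNReal.one_ne_top ((measure_mono inter_subset_left).trans hvol)

include hvol in
lemma slide_le_one (t : ℝ) : slide V t ≤ 1 := by
  unfold slide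
  have : volume (V ∩ Iio t) ≤ 1 := (measure_mono inter_subset_left).trans hvol
  simpa using ENNReal.toReal_mono ENNReal.one_ne_top this

lemma slide_nonneg (t : ℝ) : 0 ≤ slide V t := ENNReal.toReal_nonneg

include hvol in
lemma slide_mono : Monotone (slide V) := by
  intro s t h
  exact ENNReal.toReal_mono (slide_fin hvol t)
    (measure_mono (inter_subset_inter_right _ (Iio_subset_Iio h)))

include hvol in
lemma slide_sub_le {s t : ℝ} (h : s ≤ t) : slide V t - slide V s ≤ t - s := by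
  have h1 : V ∩ Iio t ⊆ (V ∩ Iio s) ∪ Ico s t := by
    intro x hx
    rcases lt_or_ge x s with h2 | h2
    · exact Or.inl ⟨hx.1, h2⟩
    · exact Or.inr ⟨h2, hx.2⟩
  have h2 : volume (V ∩ Iio t) ≤ volume (V ∩ Iio s) + ENNReal.ofReal (t - s) := by
    refine (measure_mono h1).trans ((measure_union_le _ _).trans ?_)
    rw [Real.volume_Ico]
  have h3 := ENNReal.toReal_mono (by simp [slide_fin hvol s]) h2
  rw [ENNReal.toReal_add (slide_fin hvol s) ENNReal.ofReal_ne_top,
    ENNReal.toReal_ofReal (sub_nonneg.mpr h)] at h3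
  unfold slide
  linarith

include hvol in
lemma slide_eq {s t : ℝ} (h : s ≤ t) (hsub : Icc s t ⊆ V) : slide V t - slide V s = t - s := by
  have h1 : V ∩ Iio t = (V ∩ Iio s) ∪ Ico s t := by
    ext x
    constructor
    · intro hx
      rcases lt_or_ge x s with h2 | h2
      · exact Or.inl ⟨hx.1, h2⟩
      · exact Or.inr ⟨h2, hx.2⟩
    · rintro (hx | hx)
      · exact ⟨hx.1, lt_of_lt_of_le hx.2 h⟩
      · exact ⟨hsub ⟨hx.1, hx.2.le⟩, hx.2⟩
  have hdis : Disjoint (V ∩ Iio s) (Ico s t) := by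
    rw [Set.disjoint_left]
    intro x hx hx2
    exact absurd hx.2 (not_lt.mpr hx2.1)
  unfold slide
  rw [h1, measure_union hdis measurableSet_Ico, Real.volume_Ico,
    ENNReal.toReal_add (slide_fin hvol s) ENNReal.ofReal_ne_top,
    ENNReal.toReal_ofReal (sub_nonneg.mpr h)]
  ring

include hvol in
lemma slide_iso {s t : ℝ} (hsub : uIcc s t ⊆ V) : |slide V s - slide V t| = |s - t| := by
  rcases le_total s t with h | h
  · rw [uIcc_of_le h] at hsub
    have := slide_eq hvol h hsub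
    rw [abs_sub_comm, this, abs_sub_comm]
  · rw [uIcc_of_ge h] at hsub
    have := slide_eq hvol h hsub
    rw [this]

include hvol in
lemma slide_continuous : Continuous (slide V) := by
  have : LipschitzWith 1 (slide V) := by
    apply LipschitzWith.of_le_add
    intro x y
    rcases le_total x y with h | h
    · have := slide_mono hvol h
      have := dist_nonneg (x := x) (y := y)
      linarith
    · have := slide_sub_le hvol h
      rw [Real.dist_eq, abs_of_nonneg (sub_nonneg.mpr h)]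
      linarith
  exact this.continuous

include hV hvol in
lemma slide_inj : InjOn (slide V) V := by
  intro s hs t ht heq
  by_contra hne
  wlog h : s < t generalizing s t
  · exact this ht hs heq.symm (Ne.symm hne) (lt_of_le_of_ne (not_lt.mp h) (Ne.symm hne))
  obtain ⟨ε, hε, hball⟩ := Metric.isOpen_iff.mp hV s hs
  set δ := min (ε / 2) (t - s) with hδ
  have hδ0 : 0 < δ := lt_min (by linarith) (sub_pos.mpr h)
  have h1 : Icc s (s + δ) ⊆ V := by
    intro x hx
    apply hball
    rw [Metric.mem_ball, Real.dist_eq, abs_of_nonneg (by linarith [hx.1])]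
    have : δ ≤ ε / 2 := min_le_left _ _
    linarith [hx.2]
  have h2 := slide_eq hvol (by linarith : s ≤ s + δ) h1
  have h3 : slide V (s + δ) ≤ slide V t := slide_mono hvol (by
    have : δ ≤ t - s := min_le_right _ _
    linarith)
  linarith

end slidesec

/-- Euclidean length of the curve `γ` on the time interval `[a, b]` -/
noncomputable def curveLength {n : ℕ} (γ : ℝ → E n) (a b : ℝ) : ℝ≥0∞ :=
  eVariationOn γ (Icc a b)

/-- `f` does not shorten any rectifiable curve of `U` -/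
def LengthIncreasing {n : ℕ} (U : Set (E n)) (f : U → E n) : Prop :=
  ∀ a b : ℝ, a ≤ b → ∀ γ : ℝ → U, ContinuousOn γ (Icc a b) →
    curveLength (fun t => (γ t : E n)) a b ≠ ⊤ →
    curveLength (fun t => (γ t : E n)) a b ≤ curveLength (fun t => f (γ t)) a b

/-- the sponge property of dimension `n` -/
def SpongeProperty (n : ℕ) : Prop :=
  ∃ ε : ℝ, 0 < ε ∧ ∀ U : Set (E n), IsOpen U → volume U ≤ ENNReal.ofReal ε →
    ∃ f : U → E n, (∀ x, f x ∈ Metric.closedBall (0 : E n) 1) ∧ IsEmbedding f ∧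
      LengthIncreasing U f

lemma sponge_one : SpongeProperty 1 := by
  refine ⟨1, one_pos, fun U hU hvol => ?_⟩
  set V : Set ℝ := pt ⁻¹' U with hVdef
  have hV : IsOpen V := hU.preimage pt_continuous
  have hvolV : volume V ≤ 1 := by rw [hVdef, volume_pt U hU]; simpa using hvol
  have hmem : ∀ x : U, (x : E 1) 0 ∈ V := by
    intro x
    rw [hVdef, mem_preimage, pt_coord]
    exact x.2
  set h : U → ℝ := fun x => slide V ((x : E 1) 0) with hh
  have hcont : Continuous h :=
    (slide_continuous hvolV).comp (coord_continuous.comp continuous_subtype_val)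
  have hinj : Function.Injective h := by
    intro x y hxy
    have h1 := slide_inj hV hvolV (hmem x) (hmem y) hxy
    apply Subtype.ext
    rw [← pt_coord (x : E 1), ← pt_coord (y : E 1), h1]
  have hopen : IsOpenMap h := by
    rw [isOpenMap_iff_nhds_le]
    intro x W hW
    rw [mem_map, mem_nhds_subtype] at hW
    obtain ⟨O, hO, hOW⟩ := hW
    have hO2 : pt ⁻¹' O ∈ 𝓝 ((x : E 1) 0) := by
      apply pt_continuous.continuousAt.preimage_mem_nhds
      rw [pt_coord]; exact hO
    have hVn : V ∈ 𝓝 ((x : E 1) 0) := hV.mem_nhds (hmem x)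
    obtain ⟨ε, hε, hball⟩ := Metric.mem_nhds_iff.mp (inter_mem hO2 hVn)
    refine Metric.mem_nhds_iff.mpr ⟨ε, hε, ?_⟩
    intro r hr
    set t := (x : E 1) 0 + (r - h x) with ht
    have hd : |r - h x| < ε := by simpa [Real.dist_eq] using hr
    have hseg : uIcc ((x : E 1) 0) t ⊆ Metric.ball ((x : E 1) 0) ε := by
      intro z hz
      rw [Metric.mem_ball, Real.dist_eq]
      have h1 := abs_sub_left_of_mem_uIcc hz
      have h2 : |t - (x : E 1) 0| = |r - h x| := by rw [ht]; ring_nf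
      rw [h2] at h1
      exact lt_of_le_of_lt h1 hd
    have htb : t ∈ pt ⁻¹' O ∩ V := hball (hseg right_mem_uIcc)
    have hxt : slide V t = r := by
      have hsegV : uIcc ((x : E 1) 0) t ⊆ V := fun z hz => (hball (hseg hz)).2
      rcases le_total ((x : E 1) 0) t with hle | hle
      · rw [uIcc_of_le hle] at hsegV
        have h3 := slide_eq hvolV hle hsegV
        have h4 : slide V ((x : E 1) 0) = h x := rfl
        linarith
      · rw [uIcc_of_ge hle] at hsegV
        have h3 := slide_eq hvolV hle hsegV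
        have h4 : slide V ((x : E 1) 0) = h x := rfl
        linarith
    have hin : (⟨pt t, htb.2⟩ : U) ∈ h ⁻¹' W := hOW htb.1
    have he : h ⟨pt t, htb.2⟩ = r := hxt
    rw [mem_preimage, he] at hin
    exact hin
  have hemb : IsEmbedding h := (IsOpenEmbedding.of_continuous_injective_isOpenMap hcont hinj
    hopen).isEmbedding
  refine ⟨fun x => pt (h x), fun x => ?_, pt_emb.comp hemb, ?_⟩
  · rw [mem_closedBall_zero_iff, ← dist_zero_right, dist_one]
    have h1 := slide_nonneg (V := V) ((x : E 1) 0)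
    have h2 := slide_le_one hvolV ((x : E 1) 0)
    rw [pt_apply]
    simp only [PiLp.zero_apply, sub_zero]
    rw [abs_le]
    constructor <;> simp only [hh] <;> linarith
  · intro a b _ γ hγ _
    unfold curveLength
    have := variation_le_mul (fun t => (γ t : E 1)) (fun t => pt (h (γ t))) (Icc a b) 1
      (fun x hx y hy => by
        rw [one_mul, edist_dist, edist_dist]
        apply ENNReal.ofReal_le_ofReal
        rw [dist_one, dist_one, pt_apply, pt_apply]
        have hcc : ContinuousOn (fun t => (γ t : E 1) 0) (uIcc x y) :=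
          (coord_continuous.comp continuous_subtype_val).comp_continuousOn
            (hγ.mono (uIcc_subset_Icc hx hy))
        have hsub : uIcc ((γ x : E 1) 0) ((γ y : E 1) 0) ⊆ V := by
          intro z hz
          obtain ⟨w, _, hw⟩ := intermediate_value_uIcc hcc hz
          rw [← hw]
          exact hmem (γ w)
        exact (slide_iso hvolV hsub).ge)
    simpa using this

lemma sponge_ge_two (m : ℕ) : SpongeProperty (m + 2) := by
  refine ⟨1, one_pos, fun U _ _ => ?_⟩
  refine ⟨fun x => wild m x, fun x => ?_, (wild_emb m).comp IsEmbedding.subtypeVal, ?_⟩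
  · rw [mem_closedBall_zero_iff]; exact wild_bound m _
  · intro a b _ γ hγ hv
    unfold curveLength at hv ⊢
    by_cases hne : ∃ s ∈ Icc a b, ∃ t ∈ Icc a b, (γ s : E (m + 2)) ≠ γ t
    · rw [wild_top m (fun t => (γ t : E (m + 2)))
        (continuous_subtype_val.comp_continuousOn hγ) hv hne]
      exact le_top
    · push Not at hne
      rw [eVariationOn.constant_on]
      · exact bot_le
      · rintro _ ⟨s, hs, rfl⟩ _ ⟨t, ht, rfl⟩
        exact hne s hs t ht

/-- The sponge problem, for topological embeddings, has a positive answer in every dimension; in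
dimension at least two a single embedding of the whole space works for every open set, it stretches
every nonconstant rectifiable curve to infinite length, and it and its inverse are locally Hoelder
of every exponent below one. -/
theorem result :
    (∀ n : ℕ, 1 ≤ n → SpongeProperty n) ∧
    (∀ n : ℕ, 2 ≤ n → ∃ f : E n → E n,
      (∀ x, f x ∈ Metric.closedBall (0 : E n) 1) ∧ IsEmbedding f ∧
      (∀ β : ℝ, 0 < β → β < 1 → ∀ R : ℝ, ∃ C : ℝ, ∀ x y : E n, ‖x‖ ≤ R → ‖y‖ ≤ R →
        ‖f x - f y‖ ≤ C * ‖x - y‖ ^ β ∧ ‖x - y‖ ≤ C * ‖f x - f y‖ ^ β) ∧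
      (∀ a b : ℝ, ∀ γ : ℝ → E n, ContinuousOn γ (Icc a b) → curveLength γ a b ≠ ⊤ →
        (∃ s ∈ Icc a b, ∃ t ∈ Icc a b, γ s ≠ γ t) →
        curveLength (fun t => f (γ t)) a b = ⊤)) := by
  refine ⟨fun n hn => ?_, fun n hn => ?_⟩
  · rcases hn.eq_or_lt with h | h
    · rw [← h]; exact sponge_one
    · obtain ⟨m, rfl⟩ := Nat.exists_eq_add_of_le' h
      exact sponge_ge_two m
  · obtain ⟨m, rfl⟩ := Nat.exists_eq_add_of_le' hn
    exact ⟨wild m, fun x => by rw [mem_closedBall_zero_iff]; exact wild_bound m x, wild_emb m,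
      fun β h0 h1 R => wild_holder m β h0 h1 R, fun a b γ hc hv hne => wild_top m γ hc hv hne⟩

end Pool.Agent.Results.MP_ecd4e3_gt.Sponge
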